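import Pool.Agent.UBC.Line

/-!
# Part (C) for an arbitrary lattice with complex multiplication

`L : LD` is a lattice `L.xx : ℤ × ℤ →+ ℂ` with an endomorphism `L.A` that corresponds to the
multiplication by `L.al`. `LD.kernel_sum` is the general form of `UBC.kernel_sum`;
`LD.sum3_of` gives the summability for `xx p = p.1 u + p.2 v` with `Im (v / u) > 0`.
-/

set_option autoImplicit false

open scoped ComplexConjugate

namespace Pool.Agent.UBC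

noncomputable section

/-- a lattice with a complex multiplication -/
structure LD where
  xx : ℤ × ℤ →+ ℂ
  A : ℤ × ℤ →+ ℤ × ℤ
  al : ℂ
  hA : ∀ p, xx (A p) = al * xx p
  inj : Function.Injective xx
  sum3 : Summable fun p : ℤ × ℤ => ‖xx p‖⁻¹ ^ 3
  ha : al ≠ 0
  hb : 1 - al ≠ 0

namespace LD

/-- multiplication by `1 - al` -/
def B (L : LD) : ℤ × ℤ →+ ℤ × ℤ := AddMonoidHom.id _ - L.A

variable (L : LD)

theorem B_apply (p : ℤ × ℤ) : L.B p = p - L.A p := rfl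

theorem xx_B (p : ℤ × ℤ) : L.xx (L.B p) = (1 - L.al) * L.xx p := by
  rw [B_apply, map_sub, L.hA]; ring

theorem xx_eq_zero {p : ℤ × ℤ} : L.xx p = 0 ↔ p = 0 := by
  constructor
  · intro h
    exact L.inj (h.trans (map_zero _).symm)
  · rintro rfl
    exact map_zero _

theorem A_inj : Function.Injective L.A := by
  intro p q h
  have h1 := congrArg L.xx h
  rw [L.hA, L.hA] at h1
  exact L.inj (mul_left_cancel₀ L.ha h1)

theorem B_inj : Function.Injective L.B := by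
  intro p q h
  have h1 := congrArg L.xx h
  rw [L.xx_B, L.xx_B] at h1
  exact L.inj (mul_left_cancel₀ L.hb h1)

theorem summable_kerC :
    Summable fun x : (ℤ × ℤ) × (ℤ × ℤ) => ‖UBC.kerC (L.xx x.1) (L.xx x.2)‖ := by
  have s := L.sum3
  have s0 : ∀ v : ℤ × ℤ, 0 ≤ ‖L.xx v‖⁻¹ ^ 3 := fun v => by positivity
  have s1 : Summable fun x : (ℤ × ℤ) × (ℤ × ℤ) => ‖L.xx x.1‖⁻¹ ^ 3 * ‖L.xx x.2‖⁻¹ ^ 3 :=
    s.mul_of_nonneg s s0 s0
  let e : (ℤ × ℤ) × (ℤ × ℤ) ≃ (ℤ × ℤ) × (ℤ × ℤ) :=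
    Equiv.prodShear (Equiv.refl (ℤ × ℤ)) (fun v => Equiv.subLeft v)
  have s2 : Summable fun x : (ℤ × ℤ) × (ℤ × ℤ) =>
      ‖L.xx x.1‖⁻¹ ^ 3 * ‖L.xx x.1 - L.xx x.2‖⁻¹ ^ 3 :=
    (e.summable_iff.mpr s1).congr fun x => by simp [e, ← map_sub]
  have s3 : Summable fun x : (ℤ × ℤ) × (ℤ × ℤ) =>
      ‖L.xx x.2‖⁻¹ ^ 3 * ‖L.xx x.1 - L.xx x.2‖⁻¹ ^ 3 :=
    ((Equiv.prodComm (ℤ × ℤ) (ℤ × ℤ)).summable_iff.mpr s2).congr fun x => by
      simp [norm_sub_rev (L.xx x.2) (L.xx x.1)]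
  exact Summable.of_nonneg_of_le (fun _ => norm_nonneg _) (fun x => kerC_bound _ _)
    (((s1.mul_left 8).add (s2.mul_left 6)).add (s3.mul_left 6))

theorem summable_comp {h : ℤ → ℂ} {M : ℝ} (hM : ∀ k, ‖h k‖ ≤ M)
    {f g : ℤ × ℤ → ℤ × ℤ} (hf : Function.Injective f) (hg : Function.Injective g) :
    Summable fun x : (ℤ × ℤ) × (ℤ × ℤ) =>
      h (dt x.1 x.2) * UBC.kerC (L.xx (f x.1)) (L.xx (g x.2)) := by
  have s := L.summable_kerC.comp_injective (i := Prod.map f g) (hf.prodMap hg)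
  refine Summable.of_norm_bounded (s.mul_left M) fun x => ?_
  rw [norm_mul]
  simp only [Function.comp, Prod.map_fst, Prod.map_snd]
  exact mul_le_mul_of_nonneg_right (hM _) (norm_nonneg _)

/-- the total kernel on the lattice, with weight -/
def TT (h : ℤ → ℂ) (x : (ℤ × ℤ) × (ℤ × ℤ)) : ℂ :=
  h (dt x.1 x.2) * T0 L.al (conj L.al) (L.xx x.1) (conj (L.xx x.1)) (L.xx x.2) (conj (L.xx x.2))

theorem TT_six {h : ℤ → ℂ} (hev : ∀ k, h (-k) = h k) (x : (ℤ × ℤ) × (ℤ × ℤ)) :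
    L.TT h x + L.TT h (s1 x) + L.TT h (s2 x) + L.TT h (s3 x) + L.TT h (s4 x)
      + L.TT h (s5 x) = 0 := by
  have d1 : dt (s1 x).1 (s1 x).2 = dt x.1 x.2 := by simp [s1, dt]; ring
  have d2 : dt (s2 x).1 (s2 x).2 = dt x.1 x.2 := by simp [s2, s1, dt]; ring
  have d3 : dt (s3 x).1 (s3 x).2 = -dt x.1 x.2 := by simp [s3, dt]; ring
  have d4 : dt (s4 x).1 (s4 x).2 = -dt x.1 x.2 := by simp [s4, dt]; ring
  have d5 : dt (s5 x).1 (s5 x).2 = -dt x.1 x.2 := by simp [s5, dt]; ring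
  have k := T0_six L.al (conj L.al) (L.xx x.1) (conj (L.xx x.1)) (L.xx x.2) (conj (L.xx x.2))
  simp only [TT, d1, d2, d3, d4, d5, hev]
  simp only [s1, s2, s3, s4, s5, Equiv.coe_fn_mk, Equiv.coe_fn_symm_mk, Equiv.prodComm_apply,
    Prod.fst_swap, Prod.snd_swap, map_neg, map_add]
  linear_combination h (dt x.1 x.2) * k

/-- the contribution of one pair to the three pieces -/
def FF (h : ℤ → ℂ) (x : (ℤ × ℤ) × (ℤ × ℤ)) : ℂ :=
  h (dt x.1 x.2) * (UBC.kerC (L.xx (L.B x.1)) (L.xx (L.A x.2))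
    - L.al * conj L.al * UBC.kerC (L.xx (L.A (L.B (x.1 + x.2)))) (L.xx (L.A x.2))
    + (1 - L.al) * (1 - conj L.al) *
      UBC.kerC (L.xx (L.A (L.B (x.1 + x.2)))) (L.xx (L.B x.1)))

theorem FF_eq {h : ℤ → ℂ} (h0 : h 0 = 0)
    {x : (ℤ × ℤ) × (ℤ × ℤ)} (hw : L.A x.2 ≠ L.B x.1) : L.FF h x = L.TT h x := by
  by_cases hd : dt x.1 x.2 = 0
  · simp [FF, TT, hd, h0]
  have hr : x.1 ≠ 0 := fun e => hd (by simp [e, dt])
  have hs : x.2 ≠ 0 := fun e => hd (by simp [e, dt])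
  have hz : x.1 + x.2 ≠ 0 := by
    intro e
    have e' : x.1 = -x.2 := eq_neg_of_add_eq_zero_left e
    exact hd (by rw [e', dt_neg_left, dt_self, neg_zero])
  have hr' : L.xx x.1 ≠ 0 := fun e => hr (L.xx_eq_zero.1 e)
  have hs' : L.xx x.2 ≠ 0 := fun e => hs (L.xx_eq_zero.1 e)
  have hz' : L.xx x.1 + L.xx x.2 ≠ 0 := fun e => hz (L.xx_eq_zero.1 (by rw [map_add, e]))
  have hw' : L.al * L.xx x.2 - (1 - L.al) * L.xx x.1 ≠ 0 := by
    rw [← L.hA, ← L.xx_B, ← map_sub]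
    exact fun e => hw (sub_eq_zero.1 (L.xx_eq_zero.1 e))
  have cj : ∀ {z : ℂ}, z ≠ 0 → conj z ≠ 0 := fun hz => (map_ne_zero _).2 hz
  have key := T0_eq L.ha L.hb (cj L.ha)
    (show (1 : ℂ) - conj L.al ≠ 0 by simpa using cj L.hb) hr' (cj hr') hs' (cj hs') hz'
    (by simpa using cj hz') hw' (by simpa using cj hw')
  simp only [FF, TT, ← key, UBC.kerC, L.hA, L.xx_B, map_mul, map_sub, map_add, map_one]
  ring_nf

theorem FF_line {h : ℤ → ℂ}
    {x : (ℤ × ℤ) × (ℤ × ℤ)} (hw : L.A x.2 = L.B x.1) : L.FF h x = 0 := by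
  have e0 : ∀ z : ℂ, UBC.kerC z z = 0 := fun z => by simp [UBC.kerC, ker0]
  have e1 : L.A (L.B (x.1 + x.2)) = L.A x.2 := by
    rw [map_add, map_add, ← hw, B_apply, map_sub]; abel
  simp only [FF, e1, hw, e0]
  ring

theorem line_iff (x : (ℤ × ℤ) × (ℤ × ℤ)) :
    L.A x.2 = L.B x.1 ↔ ∃ e, x = (L.A e, L.B e) := by
  constructor
  · intro h
    refine ⟨x.1 + x.2, ?_⟩
    have h' : L.A x.1 + L.A x.2 = x.1 := by rw [h, B_apply]; abel
    refine Prod.ext ?_ ?_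
    · simp only [map_add, h']
    · simp only [B_apply, map_add]; rw [← sub_eq_zero, ← sub_eq_zero.2 h']; abel
  · rintro ⟨e, rfl⟩
    simp only [B_apply, map_sub]

/-- the contribution of the line -/
def LL (h : ℤ → ℂ) (e : ℤ × ℤ) : ℂ :=
  h (dt (L.A e) e) * (6 * (conj L.al - L.al) /
    (L.al ^ 2 * (1 - L.al) ^ 2 * conj L.al ^ 4 * (1 - conj L.al) ^ 4) *
    (1 / (L.xx e ^ 2 * conj (L.xx e) ^ 4)))

theorem dt_line (e : ℤ × ℤ) : dt (L.A e) (L.B e) = dt (L.A e) e := by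
  simp [dt, B_apply]; ring

theorem TT_line {h : ℤ → ℂ} (h0 : h 0 = 0) (e : ℤ × ℤ) :
    L.TT h (L.A e, L.B e) = L.LL h e := by
  by_cases he : e = 0
  · subst he
    simp [TT, LL, dt, h0]
  have he' : L.xx e ≠ 0 := fun k => he (L.xx_eq_zero.1 k)
  have cj : ∀ {z : ℂ}, z ≠ 0 → conj z ≠ 0 := fun hz => (map_ne_zero _).2 hz
  simp only [TT, LL, dt_line, L.hA, L.xx_B, map_mul, map_sub, map_one]
  rw [T0_line L.ha L.hb (cj L.ha)
    (show (1 : ℂ) - conj L.al ≠ 0 by simpa using cj L.hb) he' (cj he')]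

theorem summable_LL {h : ℤ → ℂ} {M : ℝ}
    (hM : ∀ k, ‖h k‖ ≤ M) : Summable (L.LL h) := by
  have s := L.sum3
  have s6 : Summable fun p : ℤ × ℤ => (‖L.xx p‖⁻¹ ^ 3) ^ 2 := by
    have := s.mul_of_nonneg s (fun v => by positivity) (fun v => by positivity)
    have h2 := this.comp_injective (i := fun p : ℤ × ℤ => (p, p)) (fun p q h => (Prod.ext_iff.1 h).1)
    exact h2.congr fun p => by simp [sq]
  refine Summable.of_norm_bounded (s6.mul_left (M * ‖6 * (conj L.al - L.al) /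
    (L.al ^ 2 * (1 - L.al) ^ 2 * conj L.al ^ 4 * (1 - conj L.al) ^ 4)‖)) fun e => ?_
  have e1 : ‖(1 : ℂ) / (L.xx e ^ 2 * conj (L.xx e) ^ 4)‖ = (‖L.xx e‖⁻¹ ^ 3) ^ 2 := by
    rw [norm_div, norm_mul, norm_pow, norm_pow, RCLike.norm_conj, norm_one, ← pow_add, ← pow_mul,
      one_div, inv_pow]
  rw [LL, norm_mul, norm_mul, e1, mul_assoc M]
  exact mul_le_mul_of_nonneg_right (hM _) (by positivity)

theorem line_inj : Function.Injective fun e : ℤ × ℤ => (L.A e, L.B e) := fun _ _ h =>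
  L.A_inj (Prod.ext_iff.1 h).1

theorem summable_FF {h : ℤ → ℂ} {M : ℝ}
    (hev : ∀ k, h (-k) = h k) (hM : ∀ k, ‖h k‖ ≤ M) : Summable (L.FF h) ∧
    (∑' x, L.FF h x =
      (∑' x : (ℤ × ℤ) × (ℤ × ℤ), h (dt x.1 x.2) * UBC.kerC (L.xx (L.B x.1)) (L.xx (L.A x.2)))
      - L.al * conj L.al * (∑' x : (ℤ × ℤ) × (ℤ × ℤ), h (dt x.1 x.2) *
        UBC.kerC (L.xx (L.A (L.B x.1))) (L.xx (L.A x.2)))
      + (1 - L.al) * (1 - conj L.al) * (∑' x : (ℤ × ℤ) × (ℤ × ℤ), h (dt x.1 x.2) *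
        UBC.kerC (L.xx (L.A (L.B x.1))) (L.xx (L.B x.2)))) := by
  have c1 := L.summable_comp hM L.B_inj L.A_inj
  have c2 := L.summable_comp hM (L.A_inj.comp L.B_inj) L.A_inj
  have c3 := L.summable_comp hM (L.A_inj.comp L.B_inj) L.B_inj
  simp only [Function.comp] at c2 c3
  let e2 : (ℤ × ℤ) × (ℤ × ℤ) ≃ (ℤ × ℤ) × (ℤ × ℤ) :=
    { toFun := fun x => (x.1 + x.2, x.2)
      invFun := fun x => (x.1 - x.2, x.2)
      left_inv := fun x => by ext <;> simp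
      right_inv := fun x => by ext <;> simp }
  let e3 : (ℤ × ℤ) × (ℤ × ℤ) ≃ (ℤ × ℤ) × (ℤ × ℤ) :=
    { toFun := fun x => (x.1 + x.2, x.1)
      invFun := fun x => (x.2, x.1 - x.2)
      left_inv := fun x => by ext <;> simp
      right_inv := fun x => by ext <;> simp }
  have c2' : Summable fun x : (ℤ × ℤ) × (ℤ × ℤ) => h (dt x.1 x.2) *
      UBC.kerC (L.xx (L.A (L.B (x.1 + x.2)))) (L.xx (L.A x.2)) :=
    (e2.summable_iff.mpr c2).congr fun x => by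
      have : dt (x.1 + x.2) x.2 = dt x.1 x.2 := by simp [dt]; ring
      simp [e2, this]
  have c3' : Summable fun x : (ℤ × ℤ) × (ℤ × ℤ) => h (dt x.1 x.2) *
      UBC.kerC (L.xx (L.A (L.B (x.1 + x.2)))) (L.xx (L.B x.1)) :=
    (e3.summable_iff.mpr c3).congr fun x => by
      have : dt (x.1 + x.2) x.1 = -dt x.1 x.2 := by simp [dt]; ring
      simp [e3, this, hev]
  have t2 : ∑' x : (ℤ × ℤ) × (ℤ × ℤ), h (dt x.1 x.2) *
      UBC.kerC (L.xx (L.A (L.B (x.1 + x.2)))) (L.xx (L.A x.2)) =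
      ∑' x : (ℤ × ℤ) × (ℤ × ℤ), h (dt x.1 x.2) *
        UBC.kerC (L.xx (L.A (L.B x.1))) (L.xx (L.A x.2)) := by
    rw [← e2.tsum_eq (fun x : (ℤ × ℤ) × (ℤ × ℤ) => h (dt x.1 x.2) *
        UBC.kerC (L.xx (L.A (L.B x.1))) (L.xx (L.A x.2)))]
    refine tsum_congr fun x => ?_
    have : dt (x.1 + x.2) x.2 = dt x.1 x.2 := by simp [dt]; ring
    simp [e2, this]
  have t3 : ∑' x : (ℤ × ℤ) × (ℤ × ℤ), h (dt x.1 x.2) *
      UBC.kerC (L.xx (L.A (L.B (x.1 + x.2)))) (L.xx (L.B x.1)) =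
      ∑' x : (ℤ × ℤ) × (ℤ × ℤ), h (dt x.1 x.2) *
        UBC.kerC (L.xx (L.A (L.B x.1))) (L.xx (L.B x.2)) := by
    rw [← e3.tsum_eq (fun x : (ℤ × ℤ) × (ℤ × ℤ) => h (dt x.1 x.2) *
        UBC.kerC (L.xx (L.A (L.B x.1))) (L.xx (L.B x.2)))]
    refine tsum_congr fun x => ?_
    have : dt (x.1 + x.2) x.1 = -dt x.1 x.2 := by simp [dt]; ring
    simp [e3, this, hev]
  have hs := (c1.hasSum.sub (c2'.hasSum.mul_left (L.al * conj L.al))).add
    (c3'.hasSum.mul_left ((1 - L.al) * (1 - conj L.al)))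
  rw [t2, t3] at hs
  have hfun : L.FF h = fun b : (ℤ × ℤ) × (ℤ × ℤ) =>
      h (dt b.1 b.2) * UBC.kerC (L.xx (L.B b.1)) (L.xx (L.A b.2)) -
          L.al * conj L.al *
            (h (dt b.1 b.2) * UBC.kerC (L.xx (L.A (L.B (b.1 + b.2)))) (L.xx (L.A b.2))) +
        (1 - L.al) * (1 - conj L.al) *
          (h (dt b.1 b.2) * UBC.kerC (L.xx (L.A (L.B (b.1 + b.2)))) (L.xx (L.B b.1))) := by
    funext x
    simp only [FF]
    ring
  rw [hfun]
  exact ⟨hs.summable, hs.tsum_eq⟩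

/-- **Part (C)**, general form -/
theorem kernel_sum {h : ℤ → ℂ} {M : ℝ}
    (h0 : h 0 = 0) (hev : ∀ k, h (-k) = h k) (hM : ∀ k, ‖h k‖ ≤ M) :
    (∑' x : (ℤ × ℤ) × (ℤ × ℤ), h (dt x.1 x.2) * UBC.kerC (L.xx (L.B x.1)) (L.xx (L.A x.2)))
      - L.al * conj L.al * (∑' x : (ℤ × ℤ) × (ℤ × ℤ), h (dt x.1 x.2) *
        UBC.kerC (L.xx (L.A (L.B x.1))) (L.xx (L.A x.2)))
      + (1 - L.al) * (1 - conj L.al) * (∑' x : (ℤ × ℤ) × (ℤ × ℤ), h (dt x.1 x.2) *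
        UBC.kerC (L.xx (L.A (L.B x.1))) (L.xx (L.B x.2)))
      = - ∑' e, L.LL h e := by
  obtain ⟨hF, hFs⟩ := L.summable_FF hev hM
  rw [← hFs]
  have hLs := L.summable_LL hM
  classical
  let g : (ℤ × ℤ) × (ℤ × ℤ) → ℂ := fun x => if L.A x.2 = L.B x.1 then L.TT h x else 0
  have hinj := L.line_inj
  have hsupp : Function.support g ⊆ Set.range fun e : ℤ × ℤ => (L.A e, L.B e) := by
    intro x hx
    by_contra hc
    apply hx
    have : ¬ L.A x.2 = L.B x.1 := fun hh => hc (by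
      obtain ⟨e, he⟩ := (L.line_iff x).1 hh
      exact ⟨e, he.symm⟩)
    simp [g, this]
  have hge : ∀ e : ℤ × ℤ, g (L.A e, L.B e) = L.LL h e := by
    intro e
    have : L.A (L.B e) = L.B (L.A e) :=
      (L.line_iff (L.A e, L.B e)).2 ⟨e, rfl⟩
    simp only [g, this, if_true]
    exact L.TT_line h0 e
  have hgs : Summable g := by
    rw [← hinj.summable_iff (f := g) (fun x hx => by
      by_contra hc
      exact hx (hsupp hc))]
    exact hLs.congr fun e => (hge e).symm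
  have hgt : ∑' x, g x = ∑' e, L.LL h e := by
    rw [← hinj.tsum_eq hsupp]
    exact tsum_congr hge
  have hTT : ∀ x, L.TT h x = L.FF h x + g x := by
    intro x
    by_cases hw : L.A x.2 = L.B x.1
    · simp [g, hw, L.FF_line hw]
    · simp [g, hw, L.FF_eq h0 hw]
  have hTs : Summable (L.TT h) := (hF.add hgs).congr fun x => (hTT x).symm
  have hTt : ∑' x, L.TT h x = (∑' x, L.FF h x) + ∑' e, L.LL h e := by
    rw [← hgt, ← hF.tsum_add hgs]
    exact tsum_congr hTT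
  have hsix : ∑' x, L.TT h x = 0 := by
    have a1 := s1.hasSum_iff.mpr hTs.hasSum
    have a2 := s2.hasSum_iff.mpr hTs.hasSum
    have a3 := s3.hasSum_iff.mpr hTs.hasSum
    have a4 := s4.hasSum_iff.mpr hTs.hasSum
    have a5 := s5.hasSum_iff.mpr hTs.hasSum
    have hall := ((((hTs.hasSum.add a1).add a2).add a3).add a4).add a5
    have hz := hall.unique (by
      have : (fun b => L.TT h b + (L.TT h ∘ s1) b + (L.TT h ∘ s2) b + (L.TT h ∘ s3) b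
          + (L.TT h ∘ s4) b + (L.TT h ∘ s5) b) = fun _ => (0 : ℂ) := by
        funext x
        exact L.TT_six hev x
      rw [this]
      exact hasSum_zero)
    have h6 : (6 : ℂ) * ∑' x, L.TT h x = 0 := by linear_combination hz
    simpa using h6
  rw [hsix] at hTt
  linear_combination -hTt


theorem sum3_of {u v : ℂ} (hu : u ≠ 0) (him : 0 < (v / u).im) :
    Summable fun p : ℤ × ℤ => ‖(p.1 : ℂ) * u + p.2 * v‖⁻¹ ^ 3 := by
  refine ((summable_el3 him).mul_left (‖u‖⁻¹ ^ 3)).congr fun p => ?_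
  have : (p.1 : ℂ) * u + p.2 * v = u * el (v / u) p := by
    simp only [el]; field_simp
  rw [this, norm_mul, mul_inv, mul_pow]

end LD

end

end Pool.Agent.UBC
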