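import Pool.Agent.UBC.Lat

/-!
# Uniform Beilinson formula (MP_870c49): part (C), the three pieces and the line `w = 0`

`kernel_sum`: for an even bounded weight `h` with `h 0 = 0`, the combination of the three pieces
(`x = β r, y = α s`; `x = α β z, y = α s`; `x = α β z, y = β r`) equals minus the contribution of
the line `(r, s) = (α η, β η)`.
-/

set_option autoImplicit false

open scoped ComplexConjugate

namespace Pool.Agent.UBC

noncomputable section

variable {al : ℂ} {t n : ℤ}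

/-- the six term equivalences -/
def s1 : (ℤ × ℤ) × (ℤ × ℤ) ≃ (ℤ × ℤ) × (ℤ × ℤ) where
  toFun x := (x.2, -(x.1 + x.2))
  invFun x := (-(x.1 + x.2), x.1)
  left_inv x := by ext <;> simp
  right_inv x := by ext <;> simp

def s2 : (ℤ × ℤ) × (ℤ × ℤ) ≃ (ℤ × ℤ) × (ℤ × ℤ) := s1.symm

def s3 : (ℤ × ℤ) × (ℤ × ℤ) ≃ (ℤ × ℤ) × (ℤ × ℤ) := Equiv.prodComm _ _

def s4 : (ℤ × ℤ) × (ℤ × ℤ) ≃ (ℤ × ℤ) × (ℤ × ℤ) where
  toFun x := (x.1, -(x.1 + x.2))
  invFun x := (x.1, -(x.1 + x.2))
  left_inv x := by ext <;> simp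
  right_inv x := by ext <;> simp

def s5 : (ℤ × ℤ) × (ℤ × ℤ) ≃ (ℤ × ℤ) × (ℤ × ℤ) where
  toFun x := (-(x.1 + x.2), x.2)
  invFun x := (-(x.1 + x.2), x.2)
  left_inv x := by ext <;> simp
  right_inv x := by ext <;> simp

/-- the total kernel on `O × O`, with weight -/
def TT (al : ℂ) (h : ℤ → ℂ) (x : (ℤ × ℤ) × (ℤ × ℤ)) : ℂ :=
  h (dt x.1 x.2) * T0 al (conj al) (el al x.1) (conj (el al x.1)) (el al x.2) (conj (el al x.2))

theorem dt_neg_left (p q : ℤ × ℤ) : dt (-p) q = -dt p q := by simp [dt]; ring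

theorem TT_six (al : ℂ) {h : ℤ → ℂ} (hev : ∀ k, h (-k) = h k) (x : (ℤ × ℤ) × (ℤ × ℤ)) :
    TT al h x + TT al h (s1 x) + TT al h (s2 x) + TT al h (s3 x) + TT al h (s4 x)
      + TT al h (s5 x) = 0 := by
  have d1 : dt (s1 x).1 (s1 x).2 = dt x.1 x.2 := by simp [s1, dt]; ring
  have d2 : dt (s2 x).1 (s2 x).2 = dt x.1 x.2 := by simp [s2, s1, dt]; ring
  have d3 : dt (s3 x).1 (s3 x).2 = -dt x.1 x.2 := by simp [s3, dt]; ring
  have d4 : dt (s4 x).1 (s4 x).2 = -dt x.1 x.2 := by simp [s4, dt]; ring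
  have d5 : dt (s5 x).1 (s5 x).2 = -dt x.1 x.2 := by simp [s5, dt]; ring
  have k := T0_six al (conj al) (el al x.1) (conj (el al x.1)) (el al x.2) (conj (el al x.2))
  simp only [TT, d1, d2, d3, d4, d5, hev]
  simp only [s1, s2, s3, s4, s5, Equiv.coe_fn_mk, Equiv.coe_fn_symm_mk, Equiv.prodComm_apply,
    Prod.fst_swap, Prod.snd_swap, el_neg, el_add, map_neg, map_add]
  linear_combination h (dt x.1 x.2) * k

/-- the contribution of one pair to the three pieces -/
def FF (al : ℂ) (t n : ℤ) (h : ℤ → ℂ) (x : (ℤ × ℤ) × (ℤ × ℤ)) : ℂ :=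
  h (dt x.1 x.2) * (kerC (el al (mB t n x.1)) (el al (mA t n x.2))
    - al * conj al * kerC (el al (mA t n (mB t n (x.1 + x.2)))) (el al (mA t n x.2))
    + (1 - al) * (1 - conj al) *
      kerC (el al (mA t n (mB t n (x.1 + x.2)))) (el al (mB t n x.1)))

theorem dt_self (p : ℤ × ℤ) : dt p p = 0 := by simp [dt]; ring

theorem FF_eq (him : 0 < al.im) (hq : al ^ 2 = t * al - n) {h : ℤ → ℂ} (h0 : h 0 = 0)
    {x : (ℤ × ℤ) × (ℤ × ℤ)} (hw : mA t n x.2 ≠ mB t n x.1) : FF al t n h x = TT al h x := by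
  by_cases hd : dt x.1 x.2 = 0
  · simp [FF, TT, hd, h0]
  have hr : x.1 ≠ 0 := fun e => hd (by simp [e, dt])
  have hs : x.2 ≠ 0 := fun e => hd (by simp [e, dt])
  have hz : x.1 + x.2 ≠ 0 := by
    intro e
    have e' : x.1 = -x.2 := eq_neg_of_add_eq_zero_left e
    exact hd (by rw [e', dt_neg_left, dt_self, neg_zero])
  have hr' : el al x.1 ≠ 0 := fun e => hr ((el_eq_zero him).1 e)
  have hs' : el al x.2 ≠ 0 := fun e => hs ((el_eq_zero him).1 e)
  have hz' : el al x.1 + el al x.2 ≠ 0 := fun e => hz ((el_eq_zero him).1 (by rw [el_add, e]))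
  have hw' : al * el al x.2 - (1 - al) * el al x.1 ≠ 0 := by
    rw [← el_mA hq, ← el_mB hq, ← el_sub]
    exact fun e => hw (sub_eq_zero.1 ((el_eq_zero him).1 e))
  have cj : ∀ {z : ℂ}, z ≠ 0 → conj z ≠ 0 := fun hz => (map_ne_zero _).2 hz
  have key := T0_eq (al_ne him) (be_ne him) (cj (al_ne him))
    (show (1 : ℂ) - conj al ≠ 0 by simpa using cj (be_ne him)) hr' (cj hr') hs' (cj hs') hz'
    (by simpa using cj hz') hw' (by simpa using cj hw')
  simp only [FF, TT, ← key, kerC, el_mA hq, el_mB hq, el_add, map_mul, map_sub, map_add, map_one]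
  ring_nf

theorem FF_line {h : ℤ → ℂ}
    {x : (ℤ × ℤ) × (ℤ × ℤ)} (hw : mA t n x.2 = mB t n x.1) : FF al t n h x = 0 := by
  have e0 : ∀ z : ℂ, kerC z z = 0 := fun z => by simp [kerC, ker0]
  have e1 : mA t n (mB t n (x.1 + x.2)) = mA t n x.2 := by
    have l : ∀ p q : ℤ × ℤ, mA t n (p + q) = mA t n p + mA t n q := by
      intro p q; ext <;> simp [mA] <;> ring
    have l2 : ∀ p q : ℤ × ℤ, mA t n (p - q) = mA t n p - mA t n q := by
      intro p q; ext <;> simp [mA] <;> ring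
    have l3 : mA t n (mB t n (x.1 + x.2)) = mA t n (mB t n x.1) + mA t n (mB t n x.2) := by
      rw [← l]; congr 1; simp only [mB, l]; abel
    rw [l3, ← hw, mB, l2]; abel
  simp only [FF, e1, hw, e0]
  ring

theorem line_iff (x : (ℤ × ℤ) × (ℤ × ℤ)) :
    mA t n x.2 = mB t n x.1 ↔ ∃ e, x = (mA t n e, mB t n e) := by
  constructor
  · intro h
    refine ⟨x.1 + x.2, ?_⟩
    have l : ∀ p q : ℤ × ℤ, mA t n (p + q) = mA t n p + mA t n q := by
      intro p q; ext <;> simp [mA] <;> ring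
    have h' : mA t n x.1 + mA t n x.2 = x.1 := by rw [h, mB]; abel
    refine Prod.ext ?_ ?_
    · simp only [l, h']
    · simp only [mB, l, h']; abel
  · rintro ⟨e, rfl⟩
    simp only [mB]
    ext <;> simp [mA] <;> ring

/-- the contribution of the line -/
def LL (al : ℂ) (t n : ℤ) (h : ℤ → ℂ) (e : ℤ × ℤ) : ℂ :=
  h (Nm t n e) * (6 * (conj al - al) / (al ^ 2 * (1 - al) ^ 2 * conj al ^ 4 * (1 - conj al) ^ 4) *
    (1 / (el al e ^ 2 * conj (el al e) ^ 4)))

theorem dt_line (e : ℤ × ℤ) : dt (mA t n e) (mB t n e) = -Nm t n e := by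
  simp [dt, mA, mB, Nm]; ring

theorem TT_line (him : 0 < al.im) (hq : al ^ 2 = t * al - n) {h : ℤ → ℂ} (h0 : h 0 = 0)
    (hev : ∀ k, h (-k) = h k) (e : ℤ × ℤ) :
    TT al h (mA t n e, mB t n e) = LL al t n h e := by
  by_cases he : e = 0
  · subst he
    simp [TT, LL, Nm, dt, mA, mB, h0]
  have he' : el al e ≠ 0 := fun k => he ((el_eq_zero him).1 k)
  have cj : ∀ {z : ℂ}, z ≠ 0 → conj z ≠ 0 := fun hz => (map_ne_zero _).2 hz
  simp only [TT, LL, dt_line, hev, el_mA hq, el_mB hq, map_mul, map_sub, map_one]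
  rw [T0_line (al_ne him) (be_ne him) (cj (al_ne him))
    (show (1 : ℂ) - conj al ≠ 0 by simpa using cj (be_ne him)) he' (cj he')]

theorem summable_LL (him : 0 < al.im) {h : ℤ → ℂ} {M : ℝ}
    (hM : ∀ k, ‖h k‖ ≤ M) : Summable (LL al t n h) := by
  have s := summable_el3 him
  have s6 : Summable fun p : ℤ × ℤ => (‖el al p‖⁻¹ ^ 3) ^ 2 := by
    have := s.mul_of_nonneg s (fun v => by positivity) (fun v => by positivity)
    have h2 := this.comp_injective (i := fun p : ℤ × ℤ => (p, p)) (fun p q h => (Prod.ext_iff.1 h).1)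
    exact h2.congr fun p => by simp [sq]
  have hM0 : 0 ≤ M := (norm_nonneg _).trans (hM 0)
  refine Summable.of_norm_bounded (s6.mul_left (M * ‖6 * (conj al - al) /
    (al ^ 2 * (1 - al) ^ 2 * conj al ^ 4 * (1 - conj al) ^ 4)‖)) fun e => ?_
  have e1 : ‖(1 : ℂ) / (el al e ^ 2 * conj (el al e) ^ 4)‖ = (‖el al e‖⁻¹ ^ 3) ^ 2 := by
    rw [norm_div, norm_mul, norm_pow, norm_pow, RCLike.norm_conj, norm_one, ← pow_add, ← pow_mul,
      one_div, inv_pow]
  rw [LL, norm_mul, norm_mul, e1, mul_assoc M]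
  exact mul_le_mul_of_nonneg_right (hM _) (by positivity)

theorem line_inj (him : 0 < al.im) (hq : al ^ 2 = t * al - n) :
    Function.Injective fun e : ℤ × ℤ => (mA t n e, mB t n e) := fun _ _ h =>
  mA_inj him hq (Prod.ext_iff.1 h).1

theorem summable_FF (him : 0 < al.im) (hq : al ^ 2 = t * al - n) {h : ℤ → ℂ} {M : ℝ}
    (hev : ∀ k, h (-k) = h k) (hM : ∀ k, ‖h k‖ ≤ M) : Summable (FF al t n h) ∧
    (∑' x, FF al t n h x =
      (∑' x : (ℤ × ℤ) × (ℤ × ℤ), h (dt x.1 x.2) *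
        kerC (el al (mB t n x.1)) (el al (mA t n x.2)))
      - al * conj al * (∑' x : (ℤ × ℤ) × (ℤ × ℤ), h (dt x.1 x.2) *
        kerC (el al (mA t n (mB t n x.1))) (el al (mA t n x.2)))
      + (1 - al) * (1 - conj al) * (∑' x : (ℤ × ℤ) × (ℤ × ℤ), h (dt x.1 x.2) *
        kerC (el al (mA t n (mB t n x.1))) (el al (mB t n x.2)))) := by
  have hA := mA_inj (t := t) (n := n) him hq
  have hB := mB_inj (t := t) (n := n) him hq
  have c1 := summable_comp him hM hB hA
  have c2 := summable_comp him hM (hA.comp hB) hA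
  have c3 := summable_comp him hM (hA.comp hB) hB
  simp only [Function.comp] at c2 c3
  let e2 : (ℤ × ℤ) × (ℤ × ℤ) ≃ (ℤ × ℤ) × (ℤ × ℤ) :=
    { toFun := fun x => (x.1 + x.2, x.2)
      invFun := fun x => (x.1 - x.2, x.2)
      left_inv := fun x => by ext <;> simp
      right_inv := fun x => by ext <;> simp }
  let e3 : (ℤ × ℤ) × (ℤ × ℤ) ≃ (ℤ × ℤ) × (ℤ × ℤ) :=
    { toFun := fun x => (x.1 + x.2, x.1)
      invFun := fun x => (x.2, x.1 - x.2)
      left_inv := fun x => by ext <;> simp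
      right_inv := fun x => by ext <;> simp }
  have c2' : Summable fun x : (ℤ × ℤ) × (ℤ × ℤ) => h (dt x.1 x.2) *
      kerC (el al (mA t n (mB t n (x.1 + x.2)))) (el al (mA t n x.2)) :=
    (e2.summable_iff.mpr c2).congr fun x => by
      have : dt (x.1 + x.2) x.2 = dt x.1 x.2 := by simp [dt]; ring
      simp [e2, this]
  have c3' : Summable fun x : (ℤ × ℤ) × (ℤ × ℤ) => h (dt x.1 x.2) *
      kerC (el al (mA t n (mB t n (x.1 + x.2)))) (el al (mB t n x.1)) :=
    (e3.summable_iff.mpr c3).congr fun x => by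
      have : dt (x.1 + x.2) x.1 = -dt x.1 x.2 := by simp [dt]; ring
      simp [e3, this, hev]
  have t2 : ∑' x : (ℤ × ℤ) × (ℤ × ℤ), h (dt x.1 x.2) *
      kerC (el al (mA t n (mB t n (x.1 + x.2)))) (el al (mA t n x.2)) =
      ∑' x : (ℤ × ℤ) × (ℤ × ℤ), h (dt x.1 x.2) *
        kerC (el al (mA t n (mB t n x.1))) (el al (mA t n x.2)) := by
    rw [← e2.tsum_eq (fun x : (ℤ × ℤ) × (ℤ × ℤ) => h (dt x.1 x.2) *
        kerC (el al (mA t n (mB t n x.1))) (el al (mA t n x.2)))]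
    refine tsum_congr fun x => ?_
    have : dt (x.1 + x.2) x.2 = dt x.1 x.2 := by simp [dt]; ring
    simp [e2, this]
  have t3 : ∑' x : (ℤ × ℤ) × (ℤ × ℤ), h (dt x.1 x.2) *
      kerC (el al (mA t n (mB t n (x.1 + x.2)))) (el al (mB t n x.1)) =
      ∑' x : (ℤ × ℤ) × (ℤ × ℤ), h (dt x.1 x.2) *
        kerC (el al (mA t n (mB t n x.1))) (el al (mB t n x.2)) := by
    rw [← e3.tsum_eq (fun x : (ℤ × ℤ) × (ℤ × ℤ) => h (dt x.1 x.2) *
        kerC (el al (mA t n (mB t n x.1))) (el al (mB t n x.2)))]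
    refine tsum_congr fun x => ?_
    have : dt (x.1 + x.2) x.1 = -dt x.1 x.2 := by simp [dt]; ring
    simp [e3, this, hev]
  have hs := (c1.hasSum.sub (c2'.hasSum.mul_left (al * conj al))).add
    (c3'.hasSum.mul_left ((1 - al) * (1 - conj al)))
  rw [t2, t3] at hs
  have hfun : FF al t n h = fun b : (ℤ × ℤ) × (ℤ × ℤ) =>
      h (dt b.1 b.2) * kerC (el al (mB t n b.1)) (el al (mA t n b.2)) -
          al * conj al *
            (h (dt b.1 b.2) * kerC (el al (mA t n (mB t n (b.1 + b.2)))) (el al (mA t n b.2))) +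
        (1 - al) * (1 - conj al) *
          (h (dt b.1 b.2) * kerC (el al (mA t n (mB t n (b.1 + b.2)))) (el al (mB t n b.1))) := by
    funext x
    simp only [FF]
    ring
  rw [hfun]
  exact ⟨hs.summable, hs.tsum_eq⟩

/-- **Part (C).** -/
theorem kernel_sum (him : 0 < al.im) (hq : al ^ 2 = t * al - n) {h : ℤ → ℂ} {M : ℝ}
    (h0 : h 0 = 0) (hev : ∀ k, h (-k) = h k) (hM : ∀ k, ‖h k‖ ≤ M) :
    (∑' x : (ℤ × ℤ) × (ℤ × ℤ), h (dt x.1 x.2) *
        kerC (el al (mB t n x.1)) (el al (mA t n x.2)))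
      - al * conj al * (∑' x : (ℤ × ℤ) × (ℤ × ℤ), h (dt x.1 x.2) *
        kerC (el al (mA t n (mB t n x.1))) (el al (mA t n x.2)))
      + (1 - al) * (1 - conj al) * (∑' x : (ℤ × ℤ) × (ℤ × ℤ), h (dt x.1 x.2) *
        kerC (el al (mA t n (mB t n x.1))) (el al (mB t n x.2)))
      = - ∑' e, LL al t n h e := by
  obtain ⟨hF, hFs⟩ := summable_FF him hq hev hM
  rw [← hFs]
  have hLs := summable_LL (t := t) (n := n) him hM
  classical
  let g : (ℤ × ℤ) × (ℤ × ℤ) → ℂ := fun x => if mA t n x.2 = mB t n x.1 then TT al h x else 0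
  have hinj := line_inj (t := t) (n := n) him hq
  have hsupp : Function.support g ⊆ Set.range fun e : ℤ × ℤ => (mA t n e, mB t n e) := by
    intro x hx
    by_contra hc
    apply hx
    have : ¬ mA t n x.2 = mB t n x.1 := fun hh => hc (by
      obtain ⟨e, he⟩ := (line_iff x).1 hh
      exact ⟨e, he.symm⟩)
    simp [g, this]
  have hge : ∀ e : ℤ × ℤ, g (mA t n e, mB t n e) = LL al t n h e := by
    intro e
    have : mA t n (mB t n e) = mB t n (mA t n e) :=
      (line_iff (t := t) (n := n) (mA t n e, mB t n e)).2 ⟨e, rfl⟩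
    simp only [g, this, if_true]
    exact TT_line him hq h0 hev e
  have hgs : Summable g := by
    rw [← hinj.summable_iff (f := g) (fun x hx => by
      by_contra hc
      exact hx (hsupp hc))]
    exact hLs.congr fun e => (hge e).symm
  have hgt : ∑' x, g x = ∑' e, LL al t n h e := by
    rw [← hinj.tsum_eq hsupp]
    exact tsum_congr hge
  have hTT : ∀ x, TT al h x = FF al t n h x + g x := by
    intro x
    by_cases hw : mA t n x.2 = mB t n x.1
    · simp [g, hw, FF_line hw]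
    · simp [g, hw, FF_eq him hq h0 hw]
  have hTs : Summable (TT al h) := (hF.add hgs).congr fun x => (hTT x).symm
  have hTt : ∑' x, TT al h x = (∑' x, FF al t n h x) + ∑' e, LL al t n h e := by
    rw [← hgt, ← hF.tsum_add hgs]
    exact tsum_congr hTT
  have hsix : ∑' x, TT al h x = 0 := by
    have a1 := s1.hasSum_iff.mpr hTs.hasSum
    have a2 := s2.hasSum_iff.mpr hTs.hasSum
    have a3 := s3.hasSum_iff.mpr hTs.hasSum
    have a4 := s4.hasSum_iff.mpr hTs.hasSum
    have a5 := s5.hasSum_iff.mpr hTs.hasSum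
    have hall := ((((hTs.hasSum.add a1).add a2).add a3).add a4).add a5
    have hz := hall.unique (by
      have : (fun b => TT al h b + (TT al h ∘ s1) b + (TT al h ∘ s2) b + (TT al h ∘ s3) b
          + (TT al h ∘ s4) b + (TT al h ∘ s5) b) = fun _ => (0 : ℂ) := by
        funext x
        exact TT_six al hev x
      rw [this]
      exact hasSum_zero)
    have h6 : (6 : ℂ) * ∑' x, TT al h x = 0 := by linear_combination hz
    simpa using h6
  rw [hsix] at hTt
  linear_combination -hTt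

end

end Pool.Agent.UBC
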