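import Mathlib

/-!
# Uniform Beilinson formula (MP_870c49): the algebra of the kernel

Capital letters stand for complex conjugates: `a = conj α`, `R = conj r`, `S = conj s`.
-/

namespace Pool.Agent.UBC

noncomputable section

/-- the kernel, `X`, `Y` in the place of the conjugates -/
def ker0 (x X y Y : ℂ) : ℂ :=
  (x * Y - X * y) * (X ^ 2 + X * Y + Y ^ 2) /
    (x * X * (y * Y) * ((x - y) * (X - Y)) * (X ^ 2 * Y ^ 2))

/-- the quartic form -/
def mform (a R S : ℂ) : ℂ :=
  a ^ 2 * S ^ 4 + (a ^ 2 + 2 * a) * R * S ^ 3 + 3 * R ^ 2 * S ^ 2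
    + ((1 - a) ^ 2 + 2 * (1 - a)) * R ^ 3 * S + (1 - a) ^ 2 * R ^ 4

/-- common denominator -/
def den0 (al a r R s S : ℂ) : ℂ :=
  al * (1 - al) * a ^ 3 * (1 - a) ^ 3 * (r * s * (r + s)) * (R ^ 3 * S ^ 3 * (R + S) ^ 3)

/-- the total kernel -/
def T0 (al a r R s S : ℂ) : ℂ := (R * s - S * r) * mform a R S / den0 al a r R s S

theorem T0_eq {al a r R s S : ℂ} (hal : al ≠ 0) (hbe : 1 - al ≠ 0) (ha : a ≠ 0) (hb : 1 - a ≠ 0)
    (hr : r ≠ 0) (hR : R ≠ 0) (hs : s ≠ 0) (hS : S ≠ 0) (hz : r + s ≠ 0) (hZ : R + S ≠ 0)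
    (hw : al * s - (1 - al) * r ≠ 0) (hW : a * S - (1 - a) * R ≠ 0) :
    ker0 ((1 - al) * r) ((1 - a) * R) (al * s) (a * S)
      - al * a * ker0 (al * (1 - al) * (r + s)) (a * (1 - a) * (R + S)) (al * s) (a * S)
      + (1 - al) * (1 - a) *
        ker0 (al * (1 - al) * (r + s)) (a * (1 - a) * (R + S)) ((1 - al) * r) ((1 - a) * R)
      = T0 al a r R s S := by
  have e1 : (1 - al) * r - al * s = -(al * s - (1 - al) * r) := by ring
  have e1' : (1 - a) * R - a * S = -(a * S - (1 - a) * R) := by ring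
  have e2 : al * (1 - al) * (r + s) - al * s = -(al * (al * s - (1 - al) * r)) := by ring
  have e2' : a * (1 - a) * (R + S) - a * S = -(a * (a * S - (1 - a) * R)) := by ring
  have e3 : al * (1 - al) * (r + s) - (1 - al) * r = (1 - al) * (al * s - (1 - al) * r) := by ring
  have e3' : a * (1 - a) * (R + S) - (1 - a) * R = (1 - a) * (a * S - (1 - a) * R) := by ring
  have hD : den0 al a r R s S ≠ 0 := by simp [den0, *]
  have key : ((1 - al) * r * (a * S) - (1 - a) * R * (al * s)) *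
        (((1 - a) * R) ^ 2 + (1 - a) * R * (a * S) + (a * S) ^ 2) * ((r + s) * (R + S) ^ 3)
      - ((1 - al) * (r + s) * S - (1 - a) * (R + S) * s) *
        (((1 - a) * (R + S)) ^ 2 + (1 - a) * (R + S) * S + S ^ 2) * (r * R ^ 3)
      + (al * (r + s) * R - a * (R + S) * r) *
        ((a * (R + S)) ^ 2 + a * (R + S) * R + R ^ 2) * (s * S ^ 3)
      = (al * s - (1 - al) * r) * (a * S - (1 - a) * R) * ((R * s - S * r) * mform a R S) := by
    simp only [mform]; ring
  simp only [ker0, e1, e1', e2, e2', e3, e3', T0]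
  generalize al * s - (1 - al) * r = w at *
  generalize a * S - (1 - a) * R = W at *
  have hDW : den0 al a r R s S * (w * W) ≠ 0 := mul_ne_zero hD (mul_ne_zero hw hW)
  have h1 : ((1 - al) * r * (a * S) - (1 - a) * R * (al * s)) *
        (((1 - a) * R) ^ 2 + (1 - a) * R * (a * S) + (a * S) ^ 2) /
        ((1 - al) * r * ((1 - a) * R) * (al * s * (a * S)) * (-w * -W) *
          (((1 - a) * R) ^ 2 * (a * S) ^ 2))
      = ((1 - al) * r * (a * S) - (1 - a) * R * (al * s)) *
        (((1 - a) * R) ^ 2 + (1 - a) * R * (a * S) + (a * S) ^ 2) * ((r + s) * (R + S) ^ 3) /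
        (den0 al a r R s S * (w * W)) := by
    rw [div_eq_div_iff (by simp [*]) hDW]
    simp only [den0]; ring
  have h2 : al * a * ((al * (1 - al) * (r + s) * (a * S) - a * (1 - a) * (R + S) * (al * s)) *
        ((a * (1 - a) * (R + S)) ^ 2 + a * (1 - a) * (R + S) * (a * S) + (a * S) ^ 2) /
        (al * (1 - al) * (r + s) * (a * (1 - a) * (R + S)) * (al * s * (a * S)) *
          (-(al * w) * -(a * W)) * ((a * (1 - a) * (R + S)) ^ 2 * (a * S) ^ 2)))
      = ((1 - al) * (r + s) * S - (1 - a) * (R + S) * s) *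
        (((1 - a) * (R + S)) ^ 2 + (1 - a) * (R + S) * S + S ^ 2) * (r * R ^ 3) /
        (den0 al a r R s S * (w * W)) := by
    rw [mul_div_assoc', div_eq_div_iff (by simp [*]) hDW]
    simp only [den0]; ring
  have h3 : (1 - al) * (1 - a) *
        ((al * (1 - al) * (r + s) * ((1 - a) * R) - a * (1 - a) * (R + S) * ((1 - al) * r)) *
        ((a * (1 - a) * (R + S)) ^ 2 + a * (1 - a) * (R + S) * ((1 - a) * R) + ((1 - a) * R) ^ 2) /
        (al * (1 - al) * (r + s) * (a * (1 - a) * (R + S)) * ((1 - al) * r * ((1 - a) * R)) *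
          ((1 - al) * w * ((1 - a) * W)) * ((a * (1 - a) * (R + S)) ^ 2 * ((1 - a) * R) ^ 2)))
      = (al * (r + s) * R - a * (R + S) * r) *
        ((a * (R + S)) ^ 2 + a * (R + S) * R + R ^ 2) * (s * S ^ 3) /
        (den0 al a r R s S * (w * W)) := by
    rw [mul_div_assoc', div_eq_div_iff (by simp [*]) hDW]
    simp only [den0]; ring
  rw [h1, h2, h3, ← sub_div, ← add_div, key, div_eq_div_iff hDW hD]
  ring

/-- the sum over the six permutations of `(r, s, -(r+s))` vanishes -/
theorem T0_six (al a r R s S : ℂ) :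
    T0 al a r R s S + T0 al a s S (-(r + s)) (-(R + S)) + T0 al a (-(r + s)) (-(R + S)) r R
      + T0 al a s S r R + T0 al a r R (-(r + s)) (-(R + S)) + T0 al a (-(r + s)) (-(R + S)) s S
      = 0 := by
  have d1 : den0 al a s S (-(r + s)) (-(R + S)) = den0 al a r R s S := by simp only [den0]; ring
  have d2 : den0 al a (-(r + s)) (-(R + S)) r R = den0 al a r R s S := by simp only [den0]; ring
  have d3 : den0 al a s S r R = den0 al a r R s S := by simp only [den0]; ring
  have d4 : den0 al a r R (-(r + s)) (-(R + S)) = den0 al a r R s S := by simp only [den0]; ring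
  have d5 : den0 al a (-(r + s)) (-(R + S)) s S = den0 al a r R s S := by simp only [den0]; ring
  simp only [T0, d1, d2, d3, d4, d5, ← add_div]
  rw [div_eq_zero_iff]
  left
  simp only [mform]
  ring

/-- the value on the line `w = 0` -/
theorem T0_line {al a e E : ℂ} (hal : al ≠ 0) (hbe : 1 - al ≠ 0) (ha : a ≠ 0) (hb : 1 - a ≠ 0)
    (he : e ≠ 0) (hE : E ≠ 0) :
    T0 al a (al * e) (a * E) ((1 - al) * e) ((1 - a) * E)
      = 6 * (a - al) / (al ^ 2 * (1 - al) ^ 2 * a ^ 4 * (1 - a) ^ 4) * (1 / (e ^ 2 * E ^ 4)) := by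
  have e1 : al * e + (1 - al) * e = e := by ring
  have e2 : a * E + (1 - a) * E = E := by ring
  have hD : den0 al a (al * e) (a * E) ((1 - al) * e) ((1 - a) * E) ≠ 0 := by
    simp [den0, *]
  rw [T0, div_mul_div_comm, div_eq_div_iff hD (by simp [*])]
  simp only [den0, mform, e1, e2]
  ring

end

end Pool.Agent.UBC
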