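import Pool.Agent.UBC.Alg

/-!
# Uniform Beilinson formula (MP_870c49): the lattice `O = ℤ + ℤ α`, summability of the kernel
-/

set_option autoImplicit false

open scoped ComplexConjugate

namespace Pool.Agent.UBC

noncomputable section

/-- the element `p.1 + p.2 α` -/
def el (al : ℂ) (p : ℤ × ℤ) : ℂ := (p.1 : ℂ) + (p.2 : ℂ) * al

/-- multiplication by `α`, where `α² = t α - n` -/
def mA (t n : ℤ) (p : ℤ × ℤ) : ℤ × ℤ := (-n * p.2, p.1 + t * p.2)

/-- multiplication by `1 - α` -/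
def mB (t n : ℤ) (p : ℤ × ℤ) : ℤ × ℤ := p - mA t n p

/-- the determinant -/
def dt (p q : ℤ × ℤ) : ℤ := p.1 * q.2 - p.2 * q.1

/-- the norm form -/
def Nm (t n : ℤ) (p : ℤ × ℤ) : ℤ := p.1 ^ 2 + t * p.1 * p.2 + n * p.2 ^ 2

/-- the kernel -/
def kerC (x y : ℂ) : ℂ := ker0 x (conj x) y (conj y)

variable {al : ℂ} {t n : ℤ}

theorem el_add (p q : ℤ × ℤ) : el al (p + q) = el al p + el al q := by
  simp only [el, Prod.fst_add, Prod.snd_add]; push_cast; ring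

theorem el_sub (p q : ℤ × ℤ) : el al (p - q) = el al p - el al q := by
  simp only [el, Prod.fst_sub, Prod.snd_sub]; push_cast; ring

theorem el_neg (p : ℤ × ℤ) : el al (-p) = -el al p := by
  simp only [el, Prod.fst_neg, Prod.snd_neg]; push_cast; ring

theorem el_zero : el al 0 = 0 := by simp [el]

theorem el_mA (hq : al ^ 2 = t * al - n) (p : ℤ × ℤ) : el al (mA t n p) = al * el al p := by
  simp only [el, mA]; push_cast
  linear_combination -(p.2 : ℂ) * hq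

theorem el_mB (hq : al ^ 2 = t * al - n) (p : ℤ × ℤ) :
    el al (mB t n p) = (1 - al) * el al p := by
  rw [mB, el_sub, el_mA hq]; ring

theorem el_inj (him : 0 < al.im) {p q : ℤ × ℤ} (h : el al p = el al q) : p = q := by
  have h2 := congrArg Complex.im h
  simp only [el, Complex.add_im, Complex.intCast_im, Complex.mul_im, Complex.intCast_re,
    zero_mul, add_zero, zero_add] at h2
  have h3 : (p.2 : ℝ) = q.2 := mul_right_cancel₀ him.ne' h2
  have h4 : p.2 = q.2 := by exact_mod_cast h3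
  have h5 : (p.1 : ℂ) = q.1 := by
    simp only [el, h4] at h
    exact add_right_cancel h
  exact Prod.ext (by exact_mod_cast h5) h4

theorem el_eq_zero (him : 0 < al.im) {p : ℤ × ℤ} : el al p = 0 ↔ p = 0 := by
  constructor
  · intro h
    exact el_inj him (h.trans el_zero.symm)
  · rintro rfl
    exact el_zero

theorem al_ne (him : 0 < al.im) : al ≠ 0 := by
  rintro rfl; simp at him

theorem be_ne (him : 0 < al.im) : 1 - al ≠ 0 := by
  intro h
  have := congrArg Complex.im h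
  simp at this
  linarith

theorem mA_inj (him : 0 < al.im) (hq : al ^ 2 = t * al - n) : Function.Injective (mA t n) := by
  intro p q h
  have h1 := congrArg (el al) h
  rw [el_mA hq, el_mA hq] at h1
  exact el_inj him (mul_left_cancel₀ (al_ne him) h1)

theorem mB_inj (him : 0 < al.im) (hq : al ^ 2 = t * al - n) : Function.Injective (mB t n) := by
  intro p q h
  have h1 := congrArg (el al) h
  rw [el_mB hq, el_mB hq] at h1
  exact el_inj him (mul_left_cancel₀ (be_ne him) h1)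

theorem summable_el3 (him : 0 < al.im) : Summable fun p : ℤ × ℤ => ‖el al p‖⁻¹ ^ 3 := by
  have h1 := EisensteinSeries.summable_one_div_norm_rpow (k := 3) (by norm_num)
  have h2 : Summable fun v : ℤ × ℤ => ‖((finTwoArrowEquiv ℤ).symm v)‖ ^ (-(3 : ℝ)) :=
    ((finTwoArrowEquiv ℤ).symm.summable_iff (f := fun x : Fin 2 → ℤ => ‖x‖ ^ (-(3 : ℝ)))).mpr h1
  have h2' : Summable fun v : ℤ × ℤ => ‖((finTwoArrowEquiv ℤ).symm v.swap)‖ ^ (-(3 : ℝ)) :=
    ((Equiv.prodComm ℤ ℤ).summable_iff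
      (f := fun v : ℤ × ℤ => ‖((finTwoArrowEquiv ℤ).symm v)‖ ^ (-(3 : ℝ)))).mpr h2
  let z : UpperHalfPlane := ⟨al, him⟩
  refine Summable.of_nonneg_of_le (fun v => by positivity) (fun v => ?_)
    (h2'.mul_left (EisensteinSeries.r z ^ (-(3 : ℝ))))
  have h3 := EisensteinSeries.summand_bound z (k := 3) (by norm_num)
    ((finTwoArrowEquiv ℤ).symm v.swap)
  refine le_trans (le_of_eq ?_) h3
  have h4 : ((((finTwoArrowEquiv ℤ).symm v.swap) 0 : ℤ) : ℂ) * (z : ℂ) +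
      ((((finTwoArrowEquiv ℤ).symm v.swap) 1 : ℤ) : ℂ) = el al v := by
    simp only [el, z, finTwoArrowEquiv_symm_apply, Matrix.cons_val_zero, Matrix.cons_val_one,
      Prod.fst_swap, Prod.snd_swap]
    ring
  rw [h4, Real.rpow_neg (norm_nonneg _)]
  rw [show (3 : ℝ) = ((3 : ℕ) : ℝ) by norm_num, Real.rpow_natCast, inv_pow]

private lemma amgm {x y z : ℝ} (hx : 0 ≤ x) (hy : 0 ≤ y) (hz : 0 ≤ z) :
    x * y * z ≤ x ^ 3 + y ^ 3 + z ^ 3 := by
  nlinarith [mul_nonneg (add_nonneg (add_nonneg hx hy) hz)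
    (add_nonneg (add_nonneg (sq_nonneg (x - y)) (sq_nonneg (x - z))) (sq_nonneg (y - z))),
    mul_nonneg (mul_nonneg hx hy) hz]

theorem kerC_bound (x y : ℂ) : ‖kerC x y‖ ≤
    8 * (‖x‖⁻¹ ^ 3 * ‖y‖⁻¹ ^ 3) + 6 * (‖x‖⁻¹ ^ 3 * ‖x - y‖⁻¹ ^ 3)
      + 6 * (‖y‖⁻¹ ^ 3 * ‖x - y‖⁻¹ ^ 3) := by
  by_cases hx : x = 0
  · subst hx; simp only [kerC, ker0]; simp; positivity
  by_cases hy : y = 0
  · subst hy; simp only [kerC, ker0]; simp; positivity
  by_cases hd : x - y = 0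
  · have : kerC x y = 0 := by simp [kerC, ker0, hd]
    rw [this]; simp; positivity
  have hx' := norm_pos_iff.2 hx
  have hy' := norm_pos_iff.2 hy
  have hd' := norm_pos_iff.2 hd
  set A := ‖x‖ with hA
  set B := ‖y‖ with hB
  set C := ‖x - y‖ with hC
  have hnum1 : ‖x * conj y - conj x * y‖ ≤ 2 * (A * B) := by
    refine (norm_sub_le _ _).trans ?_
    rw [norm_mul, norm_mul, RCLike.norm_conj, RCLike.norm_conj]
    linarith
  have hnum2 : ‖conj x ^ 2 + conj x * conj y + conj y ^ 2‖ ≤ C ^ 2 + 3 * (A * B) := by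
    have e : conj x ^ 2 + conj x * conj y + conj y ^ 2
        = (conj (x - y)) ^ 2 + 3 * (conj x * conj y) := by
      rw [map_sub]; ring
    rw [e]
    refine (norm_add_le _ _).trans ?_
    rw [norm_pow, norm_mul, norm_mul, RCLike.norm_conj, RCLike.norm_conj, RCLike.norm_conj]
    simp [hA, hB, hC]
  have hden : ‖x * conj x * (y * conj y) * ((x - y) * (conj x - conj y)) *
      (conj x ^ 2 * conj y ^ 2)‖ = A ^ 4 * B ^ 4 * C ^ 2 := by
    rw [← map_sub]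
    simp only [norm_mul, norm_pow, RCLike.norm_conj]
    ring
  have h1 : ‖kerC x y‖ ≤ 2 * (A * B) * (C ^ 2 + 3 * (A * B)) / (A ^ 4 * B ^ 4 * C ^ 2) := by
    rw [kerC, ker0, norm_div, hden, norm_mul]
    gcongr
  refine h1.trans ?_
  have h2 : 2 * (A * B) * (C ^ 2 + 3 * (A * B)) / (A ^ 4 * B ^ 4 * C ^ 2)
      = 2 * (A⁻¹ ^ 3 * B⁻¹ ^ 3) + 6 * ((A⁻¹ * B⁻¹) * (A⁻¹ * C⁻¹) * (B⁻¹ * C⁻¹)) := by
    field_simp
    ring
  rw [h2]
  have h3 := amgm (x := A⁻¹ * B⁻¹) (y := A⁻¹ * C⁻¹) (z := B⁻¹ * C⁻¹) (by positivity)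
    (by positivity) (by positivity)
  have h4 : (A⁻¹ * B⁻¹) ^ 3 = A⁻¹ ^ 3 * B⁻¹ ^ 3 := by ring
  have h5 : (A⁻¹ * C⁻¹) ^ 3 = A⁻¹ ^ 3 * C⁻¹ ^ 3 := by ring
  have h6 : (B⁻¹ * C⁻¹) ^ 3 = B⁻¹ ^ 3 * C⁻¹ ^ 3 := by ring
  rw [h4, h5, h6] at h3
  linarith

theorem summable_kerC (him : 0 < al.im) :
    Summable fun x : (ℤ × ℤ) × (ℤ × ℤ) => ‖kerC (el al x.1) (el al x.2)‖ := by
  have s := summable_el3 him
  have s0 : ∀ v : ℤ × ℤ, 0 ≤ ‖el al v‖⁻¹ ^ 3 := fun v => by positivity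
  have s1 : Summable fun x : (ℤ × ℤ) × (ℤ × ℤ) => ‖el al x.1‖⁻¹ ^ 3 * ‖el al x.2‖⁻¹ ^ 3 :=
    s.mul_of_nonneg s s0 s0
  let e : (ℤ × ℤ) × (ℤ × ℤ) ≃ (ℤ × ℤ) × (ℤ × ℤ) :=
    Equiv.prodShear (Equiv.refl (ℤ × ℤ)) (fun v => Equiv.subLeft v)
  have s2 : Summable fun x : (ℤ × ℤ) × (ℤ × ℤ) =>
      ‖el al x.1‖⁻¹ ^ 3 * ‖el al x.1 - el al x.2‖⁻¹ ^ 3 :=
    (e.summable_iff.mpr s1).congr fun x => by simp [e, ← el_sub]
  have s3 : Summable fun x : (ℤ × ℤ) × (ℤ × ℤ) =>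
      ‖el al x.2‖⁻¹ ^ 3 * ‖el al x.1 - el al x.2‖⁻¹ ^ 3 :=
    ((Equiv.prodComm (ℤ × ℤ) (ℤ × ℤ)).summable_iff.mpr s2).congr fun x => by
      simp [norm_sub_rev (el al x.2) (el al x.1)]
  exact Summable.of_nonneg_of_le (fun _ => norm_nonneg _) (fun x => kerC_bound _ _)
    (((s1.mul_left 8).add (s2.mul_left 6)).add (s3.mul_left 6))

/-- summability of the kernel composed with an injective map and multiplied by a bounded weight -/
theorem summable_comp (him : 0 < al.im) {h : ℤ → ℂ} {M : ℝ} (hM : ∀ k, ‖h k‖ ≤ M)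
    {f g : ℤ × ℤ → ℤ × ℤ} (hf : Function.Injective f) (hg : Function.Injective g) :
    Summable fun x : (ℤ × ℤ) × (ℤ × ℤ) =>
      h (dt x.1 x.2) * kerC (el al (f x.1)) (el al (g x.2)) := by
  have s := (summable_kerC him).comp_injective (i := Prod.map f g) (hf.prodMap hg)
  refine Summable.of_norm_bounded (s.mul_left M) fun x => ?_
  rw [norm_mul]
  simp only [Function.comp, Prod.map_fst, Prod.map_snd]
  exact mul_le_mul_of_nonneg_right (hM _) (norm_nonneg _)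

end

end Pool.Agent.UBC
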